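import Pool.Agent.R632.VRC.Two2

/-!
# Property (VRC) is preserved by amalgams over virtually cyclic subgroups

For all groups `P`, `Q` with property (VRC), all virtually cyclic subgroups `R ≤ P`, `S ≤ Q` and all
isomorphisms `R ≅ S` the amalgamated free product `P *_{R = S} Q` has property (VRC).

The proof is the one of the starting library `Pool/Agent/R632/VRC` (gluing of homomorphisms to wreath
products with `ℤ` over compatible normal subgroups of finite index of the factors, and Følner's
condition for the hyperbolic elements); this file states the theorem for two factors.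
-/

set_option autoImplicit false

universe u

namespace Pool.Agent.Results.MP_61a31f_al.VirtuallyCyclicAmalgams

/-- `H` is a virtual retract of `G`: there are a subgroup `K` of finite index which contains `H` and
a homomorphism `K → H` whose restriction to `H` is the identity. -/
def IsVirtualRetract {G : Type u} [Group G] (H : Subgroup G) : Prop :=
  ∃ K : Subgroup G, K.FiniteIndex ∧ H ≤ K ∧ ∃ ρ : K →* H, ∀ k : K, (k : G) ∈ H → (ρ k : G) = k

/-- Property (VRC): every cyclic subgroup is a virtual retract. -/
def VRC (G : Type u) [Group G] : Prop := ∀ g : G, IsVirtualRetract (Subgroup.zpowers g)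

/-- `G` is virtually cyclic: it has a cyclic subgroup of finite index. -/
def IsVirtuallyCyclic (G : Type u) [Group G] : Prop :=
  ∃ g : G, (Subgroup.zpowers g).FiniteIndex

/-- The amalgamated free product `P *_{R = S} Q` along the isomorphism `e : R ≅ S`: the quotient of
the free product by the relations `r = e r`, `r ∈ R`. -/
abbrev Amalgam {P Q : Type u} [Group P] [Group Q] {R : Subgroup P} {S : Subgroup Q} (e : R ≃* S) :
    Type u :=
  Monoid.Coprod P Q ⧸ Subgroup.normalClosure (Set.range fun r : R =>
    (Monoid.Coprod.inl (r : P) : Monoid.Coprod P Q) * (Monoid.Coprod.inr (e r : Q))⁻¹)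

lemma vrc_iff (G : Type u) [Group G] : VRC G ↔ Pool.Agent.R632.VRC.VRC G := by
  refine forall_congr' fun g => ?_
  constructor
  · rintro ⟨K, hK, hHK, ρ, hρ⟩
    exact ⟨K, hK, hHK, (Subgroup.subtype _).comp ρ, fun k => (ρ k).2, fun k hk => hρ k hk⟩
  · rintro ⟨K, hK, hHK, r, hr, hr'⟩
    exact ⟨K, hK, hHK, r.codRestrict _ hr, fun k hk => hr' k hk⟩

/-- **The amalgam of two groups with property (VRC) over virtually cyclic subgroups has property
(VRC).** -/
theorem result (P Q : Type u) [Group P] [Group Q] (hP : VRC P) (hQ : VRC Q) (R : Subgroup P)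
    (S : Subgroup Q) (e : R ≃* S) (hR : IsVirtuallyCyclic R) : VRC (Amalgam e) := by
  obtain ⟨c, hc⟩ := hR
  rw [vrc_iff] at hP hQ ⊢
  let a : R →* P := R.subtype
  let b : R →* Q := S.subtype.comp e.toMonoidHom
  have ha : Function.Injective a := R.subtype_injective
  have hb : Function.Injective b := S.subtype_injective.comp e.injective
  let N : Subgroup (Monoid.Coprod P Q) := Subgroup.normalClosure (Set.range fun r : R =>
    (Monoid.Coprod.inl (a r) : Monoid.Coprod P Q) * (Monoid.Coprod.inr (b r))⁻¹)
  have hΓ := Pool.Agent.R632.VRC.coprod_amalg a b (QuotientGroup.mk' N)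
    (QuotientGroup.mk'_surjective N) (QuotientGroup.ker_mk' N)
  refine Pool.Agent.R632.VRC.main hΓ (fun i => ?_) (fun i => ?_) c hc
  · rcases i with _ | _
    · exact hQ
    · exact hP
  · rcases i with _ | _
    · exact hb
    · exact ha

end Pool.Agent.Results.MP_61a31f_al.VirtuallyCyclicAmalgams
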